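import Pool.Agent.helper97.BG.SigDefs

/-!
# Rewriting to standard monomials
-/

namespace Pool.Agent.helper97.BG

namespace SPAN

theorem lev_step (L : ℕ) (n : Fin 5 → ℕ) (i : Fin 5)
    (h : Lev L (n + Pi.single i 5 + Pi.single (i + 1) 5)) :
    Lev L n ∧ Lev L (n + Pi.single (i + 3) 5) := by
  have h0 := h 0
  have h1 := h 1
  have h2 := h 2
  have h3 := h 3
  have h4 := h 4
  simp only [Pi.add_apply, Pi.single_apply] at h0 h1 h2 h3 h4
  constructor
  · intro l
    fin_cases i <;> fin_cases l <;> simp at h0 h1 h2 h3 h4 ⊢ <;> omega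
  · intro l
    simp only [Pi.add_apply, Pi.single_apply]
    fin_cases i <;> fin_cases l <;> simp at h0 h1 h2 h3 h4 ⊢ <;> omega

theorem lev_y (L : ℕ) (n : Fin 5 → ℕ) (i : Fin 5) (h : Lev L n) :
    Lev (L + 5) (n + Pi.single i 5) := by
  intro l
  have h0 := h l
  simp only [Pi.add_apply, Pi.single_apply]
  split_ifs <;> omega

variable {R A : Type*} [CommRing R] [CommRing A] [Algebra R A]

theorem prod_add (V : Fin 5 → A) (n e : Fin 5 → ℕ) :
    ∏ j, V j ^ (n + e) j = (∏ j, V j ^ n j) * ∏ j, V j ^ e j := by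
  simp [pow_add, Finset.prod_mul_distrib]

theorem prod_single (V : Fin 5 → A) (i : Fin 5) (a : ℕ) :
    ∏ j, V j ^ (Pi.single i a : Fin 5 → ℕ) j = V i ^ a := by
  rw [Finset.prod_eq_single i]
  · simp
  · intro j _ hj
    simp [hj]
  · simp

theorem step_n (V : Fin 5 → A) (y : A) (rel : ∀ i, V i ^ 5 + V (i + 2) ^ 5 * V (i + 3) ^ 5 = 1)
    {m b : ℕ} (hb : b ≤ m) (hb5 : b < 5) (D : ℕ) : ∀ n : Fin 5 → ℕ, ∑ i, n i = D →
      Lev (m - b) n → (∏ i, V i ^ n i) * y ^ b ∈ Submodule.span R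
        {x | ∃ n b, b < 5 ∧ b ≤ m ∧ Std n ∧ Lev (m - b) n ∧ x = (∏ i, V i ^ n i) * y ^ b} := by
  induction D using Nat.strong_induction_on with
  | _ D ih =>
    intro n hD hn
    by_cases hs : Std n
    · exact Submodule.subset_span ⟨n, b, hb5, hb, hs, hn, rfl⟩
    · unfold Std at hs
      push Not at hs
      obtain ⟨i, hi, hi1⟩ := hs
      have hne : i ≠ i + 1 := (by decide : ∀ i : Fin 5, i ≠ i + 1) i
      obtain ⟨n', hn'⟩ : ∃ n' : Fin 5 → ℕ, n = n' + Pi.single i 5 + Pi.single (i + 1) 5 := by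
        refine ⟨fun j => n j - (Pi.single i 5 : Fin 5 → ℕ) j -
          (Pi.single (i + 1) 5 : Fin 5 → ℕ) j, ?_⟩
        funext j
        simp only [Pi.add_apply, Pi.single_apply]
        by_cases h1 : j = i
        · subst h1
          rw [if_pos rfl, if_neg hne]
          omega
        · by_cases h2 : j = i + 1
          · subst h2
            rw [if_neg h1, if_pos rfl]
            omega
          · rw [if_neg h1, if_neg h2]
            omega
      subst hn'
      obtain ⟨l1, l2⟩ := lev_step _ _ _ hn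
      have s1 : ∀ (j : Fin 5), ∑ l, (Pi.single j 5 : Fin 5 → ℕ) l = 5 := fun j => by
        simp
      have hsum : ∑ l, (n' + Pi.single i 5 + Pi.single (i + 1) 5 : Fin 5 → ℕ) l =
          ∑ l, n' l + 5 + 5 := by
        simp only [Pi.add_apply, Finset.sum_add_distrib, s1]
      have hsum2 : ∑ l, (n' + Pi.single (i + 3) 5 : Fin 5 → ℕ) l = ∑ l, n' l + 5 := by
        simp only [Pi.add_apply, Finset.sum_add_distrib, s1]
      have m1 := ih (∑ l, n' l) (by omega) n' rfl l1
      have m2 := ih (∑ l, n' l + 5) (by omega) _ hsum2 l2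
      have key : (∏ j, V j ^ (n' + Pi.single i 5 + Pi.single (i + 1) 5 : Fin 5 → ℕ) j) * y ^ b =
          (∏ j, V j ^ n' j) * y ^ b - (∏ j, V j ^ (n' + Pi.single (i + 3) 5 : Fin 5 → ℕ) j) *
            y ^ b := by
        rw [prod_add, prod_add, prod_add, prod_single, prod_single, prod_single]
        have r := rel (i + 3)
        rw [(by decide : ∀ i : Fin 5, i + 3 + 2 = i) i,
          (by decide : ∀ i : Fin 5, i + 3 + 3 = i + 1) i] at r
        linear_combination (∏ j, V j ^ n' j) * y ^ b * r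
      rw [key]
      exact Submodule.sub_mem _ m1 m2

end SPAN

theorem span_std {R A : Type*} [CommRing R] [CommRing A] [Algebra R A] (V : Fin 5 → A) (y : A)
    (c : Fin 5 → R) (rel : ∀ i, V i ^ 5 + V (i + 2) ^ 5 * V (i + 3) ^ 5 = 1)
    (yrel : y ^ 5 = ∑ i, algebraMap R A (c i) * V i ^ 5) {m b : ℕ} {n : Fin 5 → ℕ}
    (hb : b ≤ m) (hn : Lev (m - b) n) :
    (∏ i, V i ^ n i) * y ^ b ∈ Submodule.span R
      {x | ∃ n b, b < 5 ∧ b ≤ m ∧ Std n ∧ Lev (m - b) n ∧ x = (∏ i, V i ^ n i) * y ^ b} := by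
  induction b using Nat.strong_induction_on generalizing n with
  | _ b ih =>
    by_cases h5 : b < 5
    · exact SPAN.step_n V y rel hb h5 _ n rfl hn
    · obtain ⟨b', rfl⟩ : ∃ b', b = b' + 5 := ⟨b - 5, by omega⟩
      have key : (∏ i, V i ^ n i) * y ^ (b' + 5) =
          ∑ i, c i • ((∏ j, V j ^ (n + Pi.single i 5 : Fin 5 → ℕ) j) * y ^ b') := by
        rw [pow_add, yrel, Finset.mul_sum, Finset.mul_sum]
        refine Finset.sum_congr rfl fun i _ => ?_
        rw [SPAN.prod_add, SPAN.prod_single, Algebra.smul_def]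
        ring
      rw [key]
      refine Submodule.sum_mem _ fun i _ => Submodule.smul_mem _ _ ?_
      refine ih b' (by omega) (by omega) ?_
      have := SPAN.lev_y _ _ i hn
      have e : m - (b' + 5) + 5 = m - b' := by omega
      rwa [e] at this

end Pool.Agent.helper97.BG
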