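import Pool.Agent.helper97.BG.SigDefs

/-!
# The six charts `1, w i` cover the surface
-/

namespace Pool.Agent.helper97.BG

namespace COV

variable {k K : Type*} [Field k] [Field K] [Algebra k K]

/-- `⨆ w ∈ S, w W ^ n`. -/
def J (W : Submodule k K) (S : Finset K) (n : ℕ) : Submodule k K :=
  ⨆ w ∈ S, (W ^ n).map (LinearMap.mulLeft k w)

theorem mem_J {W : Submodule k K} {S : Finset K} {n : ℕ} {w x : K} (hw : w ∈ S)
    (hx : x ∈ W ^ n) : w * x ∈ J W S n :=
  Submodule.mem_iSup_of_mem w (Submodule.mem_iSup_of_mem hw ⟨x, hx, rfl⟩)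

theorem J_mul {W : Submodule k K} {S : Finset K} {m n : ℕ} {a b : K} (ha : a ∈ J W S m)
    (hb : b ∈ W ^ n) : a * b ∈ J W S (m + n) := by
  have h : J W S m ≤ (J W S (m + n)).comap (LinearMap.mulRight k b) := by
    refine iSup₂_le fun w hw => ?_
    rw [Submodule.map_le_iff_le_comap]
    intro x hx
    change w * x * b ∈ J W S (m + n)
    rw [mul_assoc]
    refine mem_J hw ?_
    rw [pow_add]
    exact Submodule.mul_mem_mul hx hb
  exact h ha

theorem prod_mem_pow {W : Submodule k K} {ι : Type*} (U : Finset ι) (f : ι → K)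
    (hf : ∀ i ∈ U, f i ∈ W) : ∏ i ∈ U, f i ∈ W ^ U.card := by
  classical
  induction U using Finset.induction_on with
  | empty => simp
  | insert a s ha ih =>
    rw [Finset.prod_insert ha, Finset.card_insert_of_notMem ha, pow_succ']
    exact Submodule.mul_mem_mul (hf a (Finset.mem_insert_self _ _))
      (ih fun i hi => hf i (Finset.mem_insert_of_mem hi))

theorem cover {W : Submodule k K} {S : Finset K} (G : Finset K)
    (hG : Submodule.span k (G : Set K) = W) (h5 : ∀ g ∈ G, g ^ 5 ∈ J W S 4) :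
    W ^ (4 * G.card + 1) ≤ J W S (4 * G.card) := by
  classical
  have hGW : ∀ g ∈ G, g ∈ W := fun g hg => by
    rw [← hG]
    exact Submodule.subset_span hg
  have key : Submodule.span k (G : Set K) ^ (4 * G.card + 1) ≤ J W S (4 * G.card) := by
    rw [Submodule.span_pow, Submodule.span_le]
    intro x hx
    rw [Set.mem_pow] at hx
    obtain ⟨f, rfl⟩ := hx
    rw [List.prod_ofFn]
    have hp : ∃ y ∈ G, 4 < (Finset.univ.filter fun i => (f i : K) = y).card := by
      refine Finset.exists_lt_card_fiber_of_mul_lt_card_of_maps_to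
        (fun i _ => (f i).2) ?_
      rw [Finset.card_univ, Fintype.card_fin]
      linarith
    obtain ⟨y, hy, hcard⟩ := hp
    obtain ⟨T, hT, hTc⟩ := Finset.exists_subset_card_eq (n := 5) (Nat.succ_le_of_lt hcard)
    have h1 : ∏ i ∈ T, (f i : K) = y ^ 5 := by
      rw [Finset.prod_congr rfl fun i hi => (Finset.mem_filter.1 (hT hi)).2,
        Finset.prod_const, hTc]
    have h2 := Finset.prod_mul_prod_compl T fun i => (f i : K)
    rw [h1] at h2
    rw [← h2]
    have h3 : ∏ i ∈ Tᶜ, (f i : K) ∈ W ^ (Tᶜ).card :=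
      prod_mem_pow _ _ fun i _ => hGW _ (f i).2
    have h4 : 4 + (Tᶜ).card = 4 * G.card := by
      rw [Finset.card_compl, Fintype.card_fin, hTc]
      have : T.card ≤ 4 * G.card + 1 := by
        have := Finset.card_le_univ T
        rwa [Fintype.card_fin] at this
      omega
    have h5' := J_mul (h5 y hy) h3
    rw [h4] at h5'
    exact h5'
  rwa [hG] at key

/-- The `22` vectors of level one. -/
theorem shape_fin : ∀ t : Fin 5 → Fin 3,
    (∀ l, (t (l + 1)).val + (t (l + 3)).val ≤ 1 + (t (l + 2)).val) →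
    ∃ i, (t i, t (i + 1), t (i + 2), t (i + 3), t (i + 4)) ∈
      ([(0, 0, 0, 0, 0), (1, 0, 0, 0, 0), (1, 1, 0, 0, 0), (1, 1, 1, 0, 0), (1, 2, 1, 0, 0),
        (1, 1, 1, 1, 1)] : List (Fin 3 × Fin 3 × Fin 3 × Fin 3 × Fin 3)) := by
  decide +kernel

theorem lev_le {n : Fin 5 → ℕ} (h : Lev 1 n) (i : Fin 5) : n i < 3 := by
  have h0 := h 0
  have h1 := h 1
  have h2 := h 2
  have h3 := h 3
  have h4 := h 4
  simp only [Fin.isValue, Fin.reduceAdd, zero_add] at h0 h1 h2 h3 h4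
  fin_cases i <;> simp only [Fin.isValue, Fin.reduceFinMk, Fin.zero_eta, Fin.mk_one] <;> omega

theorem shape {n : Fin 5 → ℕ} (h : Lev 1 n) :
    ∃ i, (n i, n (i + 1), n (i + 2), n (i + 3), n (i + 4)) ∈
      ([(0, 0, 0, 0, 0), (1, 0, 0, 0, 0), (1, 1, 0, 0, 0), (1, 1, 1, 0, 0), (1, 2, 1, 0, 0),
        (1, 1, 1, 1, 1)] : List (ℕ × ℕ × ℕ × ℕ × ℕ)) := by
  obtain ⟨i, hi⟩ := shape_fin (fun i => ⟨n i, lev_le h i⟩) h
  refine ⟨i, ?_⟩
  simp only [List.mem_cons, Prod.mk.injEq, Fin.ext_iff, List.not_mem_nil, or_false] at hi ⊢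
  exact hi

theorem finite_lev : {n : Fin 5 → ℕ | Lev 1 n}.Finite :=
  (Set.Finite.pi' (t := fun _ : Fin 5 => Set.Iio 3) fun _ => Set.finite_Iio 3).subset
    fun _ hn i => lev_le hn i

end COV

variable {k K : Type*} [Field k] [Field K] [Algebra k K]

namespace COV

theorem V_ne (d : PD k K) (i : Fin 5) : d.V i ≠ 0 := by
  have hi := (algebraicIndependent_iff).1 d.ind
  have h0 : d.V 0 ≠ 0 := by
    intro h
    have := hi (MvPolynomial.X 0) (by simp [h])
    exact MvPolynomial.X_ne_zero _ this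
  have h1 : d.V 1 ≠ 0 := by
    intro h
    have := hi (MvPolynomial.X 1) (by simp [h])
    exact MvPolynomial.X_ne_zero _ this
  have r3 := d.rel 3
  have r0 := d.rel 0
  have r1 := d.rel 1
  simp only [Fin.isValue, Fin.reduceAdd, zero_add] at r3 r0 r1
  have h3 : d.V 3 ≠ 0 := by
    intro h
    have := hi (MvPolynomial.X 0 ^ 5 * MvPolynomial.X 1 ^ 5 - 1) (by
      simp only [map_sub, map_mul, map_pow, MvPolynomial.aeval_X, map_one, Matrix.cons_val_zero,
        Matrix.cons_val_one]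
      rw [h] at r3
      linear_combination r3)
    have h' := congrArg (MvPolynomial.aeval (R := k) (fun _ => (0 : k))) this
    simp at h'
  have h2 : d.V 2 ≠ 0 := by
    intro h
    have := hi (MvPolynomial.X 0 ^ 5 - 1) (by
      simp only [map_sub, map_pow, MvPolynomial.aeval_X, map_one, Matrix.cons_val_zero]
      rw [h] at r0
      linear_combination r0)
    have h' := congrArg (MvPolynomial.aeval (R := k) (fun _ => (0 : k))) this
    simp at h'
  have h4 : d.V 4 ≠ 0 := by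
    intro h
    have := hi (MvPolynomial.X 1 ^ 5 - 1) (by
      simp only [map_sub, map_pow, MvPolynomial.aeval_X, map_one, Matrix.cons_val_one,
        Matrix.cons_val_fin_one]
      rw [h] at r1
      linear_combination r1)
    have h' := congrArg (MvPolynomial.aeval (R := k) (fun _ => (0 : k))) this
    simp at h'
  fin_cases i
  exacts [h0, h1, h2, h3, h4]

/-- The span of `1` and the fifth powers. -/
def U (d : PD k K) : Submodule k K := Submodule.span k (insert 1 (Set.range fun i => d.V i ^ 5))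

theorem one_mem_U (d : PD k K) : (1 : K) ∈ U d := Submodule.subset_span (Or.inl rfl)

theorem V_mem_U (d : PD k K) (i : Fin 5) : d.V i ^ 5 ∈ U d :=
  Submodule.subset_span (Or.inr ⟨i, rfl⟩)

theorem mon_rot (d : PD k K) (n : Fin 5 → ℕ) (i : Fin 5) :
    d.mon n = d.V i ^ n i * d.V (i + 1) ^ n (i + 1) * d.V (i + 2) ^ n (i + 2) *
      d.V (i + 3) ^ n (i + 3) * d.V (i + 4) ^ n (i + 4) := by
  unfold PD.mon
  rw [← Equiv.prod_comp (Equiv.addLeft i) fun j => d.V j ^ n j, Fin.prod_univ_five]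
  simp [Equiv.coe_addLeft]

theorem lev_zero : Lev 1 (fun _ => 0) := fun _ => by simp

theorem one_mem_W (d : PD k K) : (1 : K) ∈ d.W :=
  Submodule.subset_span (Or.inr ⟨fun _ => 0, lev_zero, by simp [PD.mon]⟩)

theorem lev_w : ∀ i : Fin 5, Lev 1 (fun j => if j = i ∨ j = i + 1 then 1 else 0) := by
  unfold Lev
  decide

theorem w_mem_W (d : PD k K) (i : Fin 5) : d.w i ∈ d.W := by
  refine Submodule.subset_span (Or.inr ⟨_, lev_w i, ?_⟩)
  rw [mon_rot d _ i]
  have e1 : ¬ (i + 2 = i ∨ i + 2 = i + 1) := by revert i; decide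
  have e2 : ¬ (i + 3 = i ∨ i + 3 = i + 1) := by revert i; decide
  have e3 : ¬ (i + 4 = i ∨ i + 4 = i + 1) := by revert i; decide
  simp only [true_or, or_true, if_true, if_neg e1, if_neg e2, if_neg e3, pow_one, pow_zero,
    mul_one]
  rfl

theorem one_mem_atlas (d : PD k K) : (1 : K) ∈ d.atlas := by
  classical
  unfold PD.atlas
  exact Finset.mem_insert_self _ _

theorem w_mem_atlas (d : PD k K) (i : Fin 5) : d.w i ∈ d.atlas := by
  classical
  unfold PD.atlas
  exact Finset.mem_insert_of_mem (Finset.mem_image_of_mem _ (Finset.mem_univ _))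

theorem U_le (d : PD k K) : U d ≤ J d.W d.atlas 4 := by
  have h1 : (1 : K) ∈ J d.W d.atlas 4 := by
    have := mem_J (one_mem_atlas d) (Submodule.pow_mem_pow (M := d.W) (one_mem_W d) 4)
    simpa using this
  refine Submodule.span_le.2 ?_
  rintro x (rfl | ⟨i, rfl⟩)
  · exact h1
  · have h2 := mem_J (w_mem_atlas d (i + 2))
      (Submodule.pow_mem_pow (M := d.W) (w_mem_W d (i + 2)) 4)
    have h3 := Submodule.sub_mem _ h1 h2
    have e : d.V i ^ 5 = 1 - d.w (i + 2) * d.w (i + 2) ^ 4 := by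
      have hr := d.rel i
      have e3 : i + 2 + 1 = i + 3 := (by decide : ∀ i : Fin 5, i + 2 + 1 = i + 3) i
      unfold PD.w
      rw [e3]
      linear_combination hr
    change d.V i ^ 5 ∈ J d.W d.atlas 4
    rw [e]
    exact h3

theorem mon_pow_mem (d : PD k K) {n : Fin 5 → ℕ} (h : Lev 1 n) : d.mon n ^ 5 ∈ U d := by
  obtain ⟨i, hi⟩ := shape h
  have r0 := d.rel i
  have r1 := d.rel (i + 1)
  have r2 := d.rel (i + 2)
  have r3 := d.rel (i + 3)
  have r4 := d.rel (i + 4)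
  have e13 : i + 1 + 2 = i + 3 := (by decide : ∀ i : Fin 5, i + 1 + 2 = i + 3) i
  have e14 : i + 1 + 3 = i + 4 := (by decide : ∀ i : Fin 5, i + 1 + 3 = i + 4) i
  have e24 : i + 2 + 2 = i + 4 := (by decide : ∀ i : Fin 5, i + 2 + 2 = i + 4) i
  have e20 : i + 2 + 3 = i := (by decide : ∀ i : Fin 5, i + 2 + 3 = i) i
  have e30 : i + 3 + 2 = i := (by decide : ∀ i : Fin 5, i + 3 + 2 = i) i
  have e31 : i + 3 + 3 = i + 1 := (by decide : ∀ i : Fin 5, i + 3 + 3 = i + 1) i
  have e41 : i + 4 + 2 = i + 1 := (by decide : ∀ i : Fin 5, i + 4 + 2 = i + 1) i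
  have e42 : i + 4 + 3 = i + 2 := (by decide : ∀ i : Fin 5, i + 4 + 3 = i + 2) i
  rw [e13, e14] at r1
  rw [e24, e20] at r2
  rw [e30, e31] at r3
  rw [e41, e42] at r4
  have m0 := V_mem_U d i
  have m1 := V_mem_U d (i + 1)
  have m2 := V_mem_U d (i + 2)
  have m3 := V_mem_U d (i + 3)
  have m4 := V_mem_U d (i + 4)
  have mm := one_mem_U d
  rw [mon_rot d n i]
  simp only [List.mem_cons, Prod.mk.injEq, List.not_mem_nil, or_false] at hi
  rcases hi with ⟨a, b, c, e, f⟩ | ⟨a, b, c, e, f⟩ | ⟨a, b, c, e, f⟩ | ⟨a, b, c, e, f⟩ |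
    ⟨a, b, c, e, f⟩ | ⟨a, b, c, e, f⟩ <;> rw [a, b, c, e, f]
  · simpa using mm
  · simpa using m0
  · have : (d.V i ^ 1 * d.V (i + 1) ^ 1 * d.V (i + 2) ^ 0 * d.V (i + 3) ^ 0 *
        d.V (i + 4) ^ 0) ^ 5 = 1 - d.V (i + 3) ^ 5 := by linear_combination r3
    rw [this]
    exact Submodule.sub_mem _ mm m3
  · have : (d.V i ^ 1 * d.V (i + 1) ^ 1 * d.V (i + 2) ^ 1 * d.V (i + 3) ^ 0 *
        d.V (i + 4) ^ 0) ^ 5 = d.V i ^ 5 + d.V (i + 2) ^ 5 - 1 := by
      linear_combination d.V (i + 2) ^ 5 * r3 - r0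
    rw [this]
    exact Submodule.sub_mem _ (Submodule.add_mem _ m0 m2) mm
  · have : (d.V i ^ 1 * d.V (i + 1) ^ 2 * d.V (i + 2) ^ 1 * d.V (i + 3) ^ 0 *
        d.V (i + 4) ^ 0) ^ 5 =
        1 + 1 - d.V (i + 1) ^ 5 - d.V (i + 3) ^ 5 - d.V (i + 4) ^ 5 := by
      linear_combination (d.V (i + 1) ^ 5 * d.V (i + 2) ^ 5) * r3 +
        (1 - d.V (i + 3) ^ 5) * r4 + r1
    rw [this]
    exact Submodule.sub_mem _ (Submodule.sub_mem _ (Submodule.sub_mem _
      (Submodule.add_mem _ mm mm) m1) m3) m4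
  · have : (d.V i ^ 1 * d.V (i + 1) ^ 1 * d.V (i + 2) ^ 1 * d.V (i + 3) ^ 1 *
        d.V (i + 4) ^ 1) ^ 5 =
        d.V i ^ 5 + d.V (i + 1) ^ 5 + d.V (i + 2) ^ 5 + d.V (i + 3) ^ 5 + d.V (i + 4) ^ 5
          - 1 - 1 - 1 := by
      linear_combination (d.V (i + 2) ^ 5 * d.V (i + 3) ^ 5 * d.V (i + 4) ^ 5) * r3 +
        (d.V (i + 4) ^ 5 - d.V (i + 3) ^ 5 * d.V (i + 4) ^ 5) * r0 - (1 - d.V i ^ 5) * r1 -
        r2 - r3
    rw [this]
    exact Submodule.sub_mem _ (Submodule.sub_mem _ (Submodule.sub_mem _ (Submodule.add_mem _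
      (Submodule.add_mem _ (Submodule.add_mem _ (Submodule.add_mem _ m0 m1) m2) m3) m4) mm)
      mm) mm

end COV

open COV in
theorem PD.isAtlas (d : PD k K) : IsAtlas d.W d.atlas := by
  classical
  refine ⟨?_, ?_, ?_⟩
  · intro w hw
    unfold PD.atlas at hw
    rcases Finset.mem_insert.1 hw with rfl | hw
    · exact one_mem_W d
    · obtain ⟨i, -, rfl⟩ := Finset.mem_image.1 hw
      exact w_mem_W d i
  · intro w hw
    unfold PD.atlas at hw
    rcases Finset.mem_insert.1 hw with rfl | hw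
    · exact one_ne_zero
    · obtain ⟨i, -, rfl⟩ := Finset.mem_image.1 hw
      exact mul_ne_zero (COV.V_ne d _) (COV.V_ne d _)
  · have hfin : (insert d.y {x | ∃ n, Lev 1 n ∧ x = d.mon n}).Finite := by
      refine Set.Finite.insert _ ?_
      refine (COV.finite_lev.image d.mon).subset ?_
      rintro x ⟨n, hn, rfl⟩
      exact ⟨n, hn, rfl⟩
    refine ⟨4 * hfin.toFinset.card, cover hfin.toFinset ?_ ?_⟩
    · rw [Set.Finite.coe_toFinset]
      rfl
    · intro g hg
      refine U_le d ?_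
      rcases (Set.Finite.mem_toFinset hfin).1 hg with rfl | ⟨n, hn, rfl⟩
      · rw [d.yrel]
        refine Submodule.sum_mem _ fun i _ => ?_
        rw [← Algebra.smul_def]
        exact Submodule.smul_mem _ _ (V_mem_U d i)
      · exact mon_pow_mem d hn

end Pool.Agent.helper97.BG
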